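import Pool.Agent.Run7.h951.FF.C

/-! MP_54b048_an, Q1: the answer is negative. -/

open Set

namespace Pool.Agent.Results.MP_54b048_an.InfiniteEntropyFactors

open Pool.Agent.Run7.h951.FF

/-- `π` is a flow factor map from `(X, φ)` onto `(Y, ψ)` -/
def IsFactor {X Y : Type} [MetricSpace X] [MetricSpace Y] (φ : Flow ℝ X) (ψ : Flow ℝ Y) (π : X → Y) : Prop :=
  Continuous π ∧ Function.Surjective π ∧ ∀ t x, π (φ t x) = ψ t (π x)

/-- topological entropy of the time-one map -/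
noncomputable def htop {Y : Type} [MetricSpace Y] (ψ : Flow ℝ Y) : EReal := Dynamics.coverEntropy (ψ 1) univ

/-- Q1 of the page -/
def Question : Prop :=
  ∀ (X : Type) [MetricSpace X] [CompactSpace X] (φ : Flow ℝ X), (∀ x, ¬ ∀ t, φ t x = x) → ∀ δ : ℝ, 0 < δ →
    ∀ w w' : X, w ≠ w' → ∃ (Y : Type) (_ : MetricSpace Y) (_ : CompactSpace Y) (ψ : Flow ℝ Y) (π : X → Y),
      IsFactor φ ψ π ∧ π w ≠ π w' ∧ htop ψ < ((δ : ℝ) : EReal)

/-- the strong form of the counterexample -/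
def Strong : Prop :=
  ∃ (X : Type) (_ : MetricSpace X) (_ : CompactSpace X) (φ : Flow ℝ X) (θ : X → UnitAddCircle),
    Continuous θ ∧ (∀ t x, θ (φ t x) = θ x + (t : UnitAddCircle)) ∧ (∀ s, ∃ w w', w ≠ w' ∧ θ w = s ∧ θ w' = s) ∧
    ∀ w w' : X, w ≠ w' → θ w = θ w' → ∀ (Y : Type) [MetricSpace Y] [CompactSpace Y] (ψ : Flow ℝ Y) (π : X → Y),
      IsFactor φ ψ π → π w ≠ π w' → htop ψ = ⊤

theorem result : ¬ Question ∧ Strong := by
  have hS : Strong := by
    let _i : MetricSpace L := TopologicalSpace.metrizableSpaceMetric L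
    refine ⟨L × UnitAddCircle, inferInstance, inferInstance, flow, Prod.snd, continuous_snd, fun t x => rfl, ?_, ?_⟩
    · intro s
      refine ⟨(cst 0 le_rfl zero_le_one, s), (cst 1 zero_le_one le_rfl, s), fun h => ?_, rfl, rfl⟩
      have h1 := congrArg (fun p : L × UnitAddCircle => p.1.1 0) h
      exact zero_ne_one h1
    · rintro ⟨f, s⟩ ⟨f', s'⟩ _ hs Y _ _ ψ π ⟨hπ, _, heq⟩ hne
      have hs' : s = s' := hs
      subst hs'
      refine entropy_top (ψ 1) (fun f => π (f, s)) (hπ.comp (continuous_id.prodMk continuous_const)) ?_ hne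
      intro f
      rw [← heq]
      congr 1
      refine Prod.ext rfl ?_
      show s = s + ((1 : ℝ) : UnitAddCircle)
      rw [AddCircle.coe_period, add_zero]
  refine ⟨fun hQ => ?_, hS⟩
  obtain ⟨X, _, _, φ, θ, _, hθ, hex, hinf⟩ := hS
  obtain ⟨w, w', hne, hw, hw'⟩ := hex 0
  have hfix : ∀ x, ¬ ∀ t, φ t x = x := by
    intro x h
    have h1 := hθ (1 / 2) x
    rw [h (1 / 2)] at h1
    have h2 : ((1 / 2 : ℝ) : UnitAddCircle) = 0 := left_eq_add.1 h1
    obtain ⟨n, hn⟩ := (AddCircle.coe_eq_zero_iff (1 : ℝ)).1 h2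
    rw [zsmul_eq_mul, mul_one] at hn
    have h3 : ((2 * n : ℤ) : ℝ) = ((1 : ℤ) : ℝ) := by push_cast; linarith
    have h4 : 2 * n = 1 := by exact_mod_cast h3
    omega
  obtain ⟨Y, _, _, ψ, π, hπ, hπw, hlt⟩ := hQ X φ hfix 1 one_pos w w' hne
  rw [hinf w w' hne (hw.trans hw'.symm) Y ψ π hπ hπw] at hlt
  exact not_top_lt hlt

end Pool.Agent.Results.MP_54b048_an.InfiniteEntropyFactors
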